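import Pool.Agent.H95.GY.Targets

/-! # Quotients by trapping subgroups have no small subgroups -/

set_option autoImplicit false

open Filter Topology MeasureTheory Set
open scoped Pointwise

universe u

namespace Pool.Agent.H89.GY
open Pool.Agent.H95.GY

theorem pf_QNS : T_QNS.{u} := by
  intro G _ _ _ _ _ N _ hN hT
  have hcl : IsClosed (N : Set G) := hN.isClosed
  refine ⟨inferInstance, inferInstance, ?_⟩
  obtain ⟨O, hO, hNO, hH⟩ := hT
  have hopen : IsOpen ((Oᶜ * (N : Set G))ᶜ) :=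
    (hO.isClosed_compl.mul_right_of_isCompact hN).isOpen_compl
  have hmem : ∀ g : G, g ∈ (Oᶜ * (N : Set G))ᶜ ↔ ∀ n ∈ N, g * n ∈ O := by
    intro g
    rw [mem_compl_iff, Set.mem_mul]
    constructor
    · intro h n hn
      by_contra hc
      exact h ⟨g * n, hc, n⁻¹, N.inv_mem hn, by group⟩
    · rintro h ⟨x, hx, n, hn, rfl⟩
      have := h n⁻¹ (N.inv_mem hn)
      rw [mul_inv_cancel_right] at this
      exact hx this
  refine ⟨(QuotientGroup.mk : G → G ⧸ N) '' ((Oᶜ * (N : Set G))ᶜ),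
    QuotientGroup.isOpenMap_coe _ hopen, ?_, ?_⟩
  · intro x hx
    have hx1 : x = 1 := by simpa using hx
    refine ⟨1, (hmem 1).2 fun n hn => ?_, hx1.symm⟩
    rw [one_mul]
    exact hNO hn
  · intro H hHO
    have h1 : H.comap (QuotientGroup.mk' N) ≤ N := by
      refine hH _ ?_
      intro g hg
      have hg' : (QuotientGroup.mk g : G ⧸ N) ∈ H := hg
      obtain ⟨g', hg1, hg2⟩ := hHO hg'
      have h2 : g'⁻¹ * g ∈ N := QuotientGroup.eq.1 hg2
      have h3 := (hmem g').1 hg1 _ h2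
      rwa [mul_inv_cancel_left] at h3
    intro x hx
    obtain ⟨g, rfl⟩ := QuotientGroup.mk_surjective x
    have h2 : g ∈ N := h1 (show (QuotientGroup.mk g : G ⧸ N) ∈ H from hx)
    rw [Subgroup.mem_bot]
    exact (QuotientGroup.eq_one_iff g).2 h2

end Pool.Agent.H89.GY
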